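import Mathlib
import Pool.Agent.H96.HK.Basic

/-!
# MP_e94f6f_an, modules CMH and ZH: Gaussians of the plane in polar coordinates, kernel of the cone
-/

open MeasureTheory Set Filter Topology
open scoped ContDiff

namespace Pool.Agent.H2.HK

open Pool.Agent.H96.HK

theorem hasDerivAt_E2 {t : ℝ} (_ht : 0 < t) (r : ℝ) :
    HasDerivAt (E2 t) (-(E2 t r / (4 * t))) r := by
  have h1 : HasDerivAt (fun r : ℝ => -(r / (4 * t))) (-(1 / (4 * t))) r :=
    ((hasDerivAt_id r).div_const (4 * t)).neg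
  have h2 := (h1.exp.const_mul ((4 * Real.pi * t)⁻¹))
  refine h2.congr_deriv ?_
  unfold E2
  ring

theorem hasDerivAt_E2_time {t : ℝ} (ht : 0 < t) (r : ℝ) :
    HasDerivAt (fun τ => E2 τ r) (E2 t r * (-(1 / t) + r / (4 * t ^ 2))) t := by
  have hpi := Real.pi_pos
  have h0 : 4 * Real.pi * t ≠ 0 := by positivity
  have h4 : 4 * t ≠ 0 := by positivity
  have h1 : HasDerivAt (fun τ : ℝ => (4 * Real.pi * τ)⁻¹) (-(4 * Real.pi) / (4 * Real.pi * t) ^ 2) t := by
    have := (hasDerivAt_id t).const_mul (4 * Real.pi)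
    rw [mul_one] at this
    exact this.inv h0
  have h2 : HasDerivAt (fun τ : ℝ => -(r / (4 * τ))) (r * 4 / (4 * t) ^ 2) t := by
    have h3 : HasDerivAt (fun τ : ℝ => 4 * τ) 4 t := by
      have := (hasDerivAt_id t).const_mul 4
      rwa [mul_one] at this
    have h5 := ((hasDerivAt_const t r).div h3 h4).neg
    refine h5.congr_deriv ?_
    ring
  have h3 := h1.mul h2.exp
  refine h3.congr_deriv ?_
  unfold E2
  field_simp

theorem ds_gauss {t : ℝ} (ht : 0 < t) (q : X) :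
    ds (fun p => E2 t (cm p q)) =
      fun p => -((p.1 - q.1 * Real.cos (p.2 - q.2)) / (2 * t)) * E2 t (cm p q) := by
  funext p
  unfold ds
  have h1 : HasDerivAt (fun a : ℝ => cm (a, p.2) q) (2 * p.1 - 2 * q.1 * Real.cos (p.2 - q.2)) p.1 := by
    unfold cm
    simp only
    have h2 := (((hasDerivAt_id p.1).pow 2).add_const (q.1 ^ 2)).sub
      ((((hasDerivAt_id p.1).const_mul 2).mul_const q.1).mul_const (Real.cos (p.2 - q.2)))
    refine h2.congr_deriv ?_
    simp only [id]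
    norm_num
  have h2 := (hasDerivAt_E2 ht (cm (p.1, p.2) q)).comp p.1 h1
  have h3 := h2.deriv
  have h4 : (E2 t ∘ fun a : ℝ => cm (a, p.2) q) = fun a : ℝ => E2 t (cm (a, p.2) q) := rfl
  rw [h4] at h3
  rw [h3]
  field_simp
  ring

theorem dp_gauss {t : ℝ} (ht : 0 < t) (q : X) :
    dp (fun p => E2 t (cm p q)) =
      fun p => -((p.1 * q.1 * Real.sin (p.2 - q.2)) / (2 * t)) * E2 t (cm p q) := by
  funext p
  unfold dp
  have h1 : HasDerivAt (fun b : ℝ => cm (p.1, b) q) (2 * p.1 * q.1 * Real.sin (p.2 - q.2)) p.2 := by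
    unfold cm
    simp only
    have h0 : HasDerivAt (fun b : ℝ => b - q.2) 1 p.2 := (hasDerivAt_id p.2).sub_const q.2
    have h2 := (h0.cos.const_mul (2 * p.1 * q.1)).const_sub (p.1 ^ 2 + q.1 ^ 2)
    refine h2.congr_deriv ?_
    ring
  have h2 := (hasDerivAt_E2 ht (cm (p.1, p.2) q)).comp p.2 h1
  have h3 := h2.deriv
  have h4 : (E2 t ∘ fun b : ℝ => cm (p.1, b) q) = fun b : ℝ => E2 t (cm (p.1, b) q) := rfl
  rw [h4] at h3
  rw [h3]
  field_simp
  ring

theorem dsds_gauss {t : ℝ} (ht : 0 < t) (q p : X) :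
    ds (ds (fun p => E2 t (cm p q))) p =
      (-(1 / (2 * t)) + (p.1 - q.1 * Real.cos (p.2 - q.2)) ^ 2 / (4 * t ^ 2)) * E2 t (cm p q) := by
  rw [ds_gauss ht q]
  unfold ds
  simp only
  have h1 : HasDerivAt (fun a : ℝ => -((a - q.1 * Real.cos (p.2 - q.2)) / (2 * t))) (-(1 / (2 * t))) p.1 :=
    (((hasDerivAt_id p.1).sub_const _).div_const _).neg
  have h2 : HasDerivAt (fun a : ℝ => E2 t (cm (a, p.2) q))
      (-((p.1 - q.1 * Real.cos (p.2 - q.2)) / (2 * t)) * E2 t (cm p q)) p.1 := by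
    have h3 : DifferentiableAt ℝ (fun a : ℝ => E2 t (cm (a, p.2) q)) p.1 := by
      unfold E2 cm
      simp only
      fun_prop
    have h4 := congrFun (ds_gauss ht q) p
    unfold ds at h4
    rw [← h4]
    exact h3.hasDerivAt
  have h3 := (h1.mul h2).deriv
  have h4 : ((fun a : ℝ => -((a - q.1 * Real.cos (p.2 - q.2)) / (2 * t))) *
      fun a : ℝ => E2 t (cm (a, p.2) q)) = fun a : ℝ =>
      -((a - q.1 * Real.cos (p.2 - q.2)) / (2 * t)) * E2 t (cm (a, p.2) q) := rfl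
  rw [h4] at h3
  rw [h3]
  have h5 : cm (p.1, p.2) q = cm p q := rfl
  rw [h5]
  field_simp
  ring

theorem dpdp_gauss {t : ℝ} (ht : 0 < t) (q p : X) :
    dp (dp (fun p => E2 t (cm p q))) p =
      (-(p.1 * q.1 * Real.cos (p.2 - q.2) / (2 * t)) +
        (p.1 * q.1 * Real.sin (p.2 - q.2)) ^ 2 / (4 * t ^ 2)) * E2 t (cm p q) := by
  rw [dp_gauss ht q]
  unfold dp
  simp only
  have h0 : HasDerivAt (fun b : ℝ => b - q.2) 1 p.2 := (hasDerivAt_id p.2).sub_const q.2
  have h1 : HasDerivAt (fun b : ℝ => -((p.1 * q.1 * Real.sin (b - q.2)) / (2 * t)))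
      (-(p.1 * q.1 * Real.cos (p.2 - q.2) / (2 * t))) p.2 := by
    have := ((h0.sin.const_mul (p.1 * q.1)).div_const (2 * t)).neg
    refine this.congr_deriv ?_
    ring
  have h2 : HasDerivAt (fun b : ℝ => E2 t (cm (p.1, b) q))
      (-((p.1 * q.1 * Real.sin (p.2 - q.2)) / (2 * t)) * E2 t (cm p q)) p.2 := by
    have h3 : DifferentiableAt ℝ (fun b : ℝ => E2 t (cm (p.1, b) q)) p.2 := by
      unfold E2 cm
      simp only
      fun_prop
    have h4 := congrFun (dp_gauss ht q) p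
    unfold dp at h4
    rw [← h4]
    exact h3.hasDerivAt
  have h3 := (h1.mul h2).deriv
  have h4 : ((fun b : ℝ => -((p.1 * q.1 * Real.sin (b - q.2)) / (2 * t))) *
      fun b : ℝ => E2 t (cm (p.1, b) q)) = fun b : ℝ =>
      -((p.1 * q.1 * Real.sin (b - q.2)) / (2 * t)) * E2 t (cm (p.1, b) q) := rfl
  rw [h4] at h3
  rw [h3]
  have h5 : cm (p.1, p.2) q = cm p q := rfl
  rw [h5]
  field_simp
  ring

theorem contDiff_gauss (t : ℝ) (q : X) : ContDiff ℝ 2 (fun p => E2 t (cm p q)) := by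
  unfold E2 cm
  have h1 : ContDiff ℝ 2 (fun p : X => Real.cos (p.2 - q.2)) :=
    Real.contDiff_cos.comp (contDiff_snd.sub contDiff_const)
  refine contDiff_const.mul (Real.contDiff_exp.comp (ContDiff.neg (ContDiff.div_const ?_ _)))
  exact ((contDiff_fst.pow 2).add contDiff_const).sub
    (((contDiff_const.mul contDiff_fst).mul contDiff_const).mul h1)

theorem prof_far {F : ℝ → ℝ} (hF : Prof F) {s : ℝ} (hs : 1 < s) : F s = s ∧ deriv F s = 1 := by
  refine ⟨hF.eq_of_one_le hs.le, ?_⟩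
  have h1 : F =ᶠ[𝓝 s] id := by
    filter_upwards [lt_mem_nhds hs] with x hx
    exact hF.eq_of_one_le hx.le
  rw [h1.deriv_eq]
  exact deriv_id s

theorem LB_gauss {F : ℝ → ℝ} (hF : Prof F) (q p : X) (hp : 1 < p.1) {t : ℝ} (ht : 0 < t) :
    LB F (fun p => E2 t (cm p q)) p = E2 t (cm p q) * (-(1 / t) + cm p q / (4 * t ^ 2)) := by
  unfold LB
  rw [dsds_gauss ht, dpdp_gauss ht, congrFun (ds_gauss ht q) p, (prof_far hF hp).1,
    (prof_far hF hp).2]
  have hp0 : p.1 ≠ 0 := by linarith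
  have hcs := Real.sin_sq_add_cos_sq (p.2 - q.2)
  have hcm : cm p q = (p.1 - q.1 * Real.cos (p.2 - q.2)) ^ 2 + (q.1 * Real.sin (p.2 - q.2)) ^ 2 := by
    unfold cm
    linear_combination (-q.1 ^ 2) * hcs
  have h1 : (-(1 / (2 * t)) + (p.1 - q.1 * Real.cos (p.2 - q.2)) ^ 2 / (4 * t ^ 2)) *
      E2 t (cm p q) + 1 / p.1 * (-((p.1 - q.1 * Real.cos (p.2 - q.2)) / (2 * t)) * E2 t (cm p q)) +
      (-(p.1 * q.1 * Real.cos (p.2 - q.2) / (2 * t)) +
        (p.1 * q.1 * Real.sin (p.2 - q.2)) ^ 2 / (4 * t ^ 2)) * E2 t (cm p q) / p.1 ^ 2 =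
      E2 t (cm p q) * (-(1 / t) + ((p.1 - q.1 * Real.cos (p.2 - q.2)) ^ 2 +
        (q.1 * Real.sin (p.2 - q.2)) ^ 2) / (4 * t ^ 2)) := by
    field_simp
    ring
  rw [h1, ← hcm]

theorem cmh : T_CMH := by
  intro F hF q p hp t ht
  refine ⟨(contDiff_gauss t q).contDiffAt, ?_⟩
  rw [LB_gauss hF q p hp ht]
  exact hasDerivAt_E2_time ht (cm p q)

theorem ds_eq {f : X → ℝ} (hf : Differentiable ℝ f) : ds f = fun p => fderiv ℝ f p (1, 0) := by
  funext p
  unfold ds
  have h1 : HasDerivAt (fun a : ℝ => ((a, p.2) : X)) (1, 0) p.1 :=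
    (hasDerivAt_id p.1).prodMk (hasDerivAt_const p.1 p.2)
  have h2 : HasFDerivAt f (fderiv ℝ f p) ((fun a : ℝ => ((a, p.2) : X)) p.1) :=
    (hf p).hasFDerivAt
  exact (h2.comp_hasDerivAt p.1 h1).deriv

theorem dp_eq {f : X → ℝ} (hf : Differentiable ℝ f) : dp f = fun p => fderiv ℝ f p (0, 1) := by
  funext p
  unfold dp
  have h1 : HasDerivAt (fun b : ℝ => ((p.1, b) : X)) (0, 1) p.2 :=
    (hasDerivAt_const p.2 p.1).prodMk (hasDerivAt_id p.2)
  have h2 : HasFDerivAt f (fderiv ℝ f p) ((fun b : ℝ => ((p.1, b) : X)) p.2) :=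
    (hf p).hasFDerivAt
  exact (h2.comp_hasDerivAt p.2 h1).deriv

theorem LB_add (F : ℝ → ℝ) {f g : X → ℝ} (hf : ContDiff ℝ 2 f) (hg : ContDiff ℝ 2 g) (p : X) :
    LB F (fun p => f p + g p) p = LB F f p + LB F g p := by
  have hf1 : Differentiable ℝ f := hf.differentiable (by norm_num)
  have hg1 : Differentiable ℝ g := hg.differentiable (by norm_num)
  have hf2 : ContDiff ℝ 1 (fderiv ℝ f) := hf.fderiv_right (by norm_num)
  have hg2 : ContDiff ℝ 1 (fderiv ℝ g) := hg.fderiv_right (by norm_num)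
  have hds : ds (fun p => f p + g p) = fun p => ds f p + ds g p := by
    rw [ds_eq (f := fun p => f p + g p) (hf1.add hg1), ds_eq hf1, ds_eq hg1]
    funext z
    rw [fderiv_fun_add (hf1 z) (hg1 z)]
    rfl
  have hdp : dp (fun p => f p + g p) = fun p => dp f p + dp g p := by
    rw [dp_eq (f := fun p => f p + g p) (hf1.add hg1), dp_eq hf1, dp_eq hg1]
    funext z
    rw [fderiv_fun_add (hf1 z) (hg1 z)]
    rfl
  have dsf : Differentiable ℝ (ds f) := by
    rw [ds_eq hf1]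
    exact (hf2.clm_apply contDiff_const).differentiable (by norm_num)
  have dsg : Differentiable ℝ (ds g) := by
    rw [ds_eq hg1]
    exact (hg2.clm_apply contDiff_const).differentiable (by norm_num)
  have dpf : Differentiable ℝ (dp f) := by
    rw [dp_eq hf1]
    exact (hf2.clm_apply contDiff_const).differentiable (by norm_num)
  have dpg : Differentiable ℝ (dp g) := by
    rw [dp_eq hg1]
    exact (hg2.clm_apply contDiff_const).differentiable (by norm_num)
  have h1 : ds (fun p => ds f p + ds g p) p = ds (ds f) p + ds (ds g) p := by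
    rw [ds_eq (f := fun p => ds f p + ds g p) (dsf.add dsg), ds_eq dsf, ds_eq dsg]
    simp only
    rw [fderiv_fun_add (dsf p) (dsg p)]
    rfl
  have h2 : dp (fun p => dp f p + dp g p) p = dp (dp f) p + dp (dp g) p := by
    rw [dp_eq (f := fun p => dp f p + dp g p) (dpf.add dpg), dp_eq dpf, dp_eq dpg]
    simp only
    rw [fderiv_fun_add (dpf p) (dpg p)]
    rfl
  unfold LB
  rw [hds, hdp, h1, h2]
  ring

theorem cp_eq (p q : X) : cp p q = cm p (q.1, q.2 + Real.pi) := by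
  unfold cp cm
  simp only
  have : p.2 - (q.2 + Real.pi) = p.2 - q.2 - Real.pi := by ring
  rw [this, Real.cos_sub_pi]
  ring

theorem cm_ge (p q : X) (hp : 0 ≤ p.1) : (p.1 - |q.1|) ^ 2 ≤ cm p q := by
  unfold cm
  have h1 : q.1 * Real.cos (p.2 - q.2) ≤ |q.1| := by
    calc q.1 * Real.cos (p.2 - q.2) ≤ |q.1 * Real.cos (p.2 - q.2)| := le_abs_self _
      _ = |q.1| * |Real.cos (p.2 - q.2)| := abs_mul _ _
      _ ≤ |q.1| * 1 := mul_le_mul_of_nonneg_left (Real.abs_cos_le_one _) (abs_nonneg _)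
      _ = |q.1| := mul_one _
  have h2 := sq_abs q.1
  nlinarith [mul_le_mul_of_nonneg_left h1 hp]

theorem cp_ge (p q : X) (hp : 0 ≤ p.1) : (p.1 - |q.1|) ^ 2 ≤ cp p q := by
  rw [cp_eq]
  exact cm_ge p (q.1, q.2 + Real.pi) hp

theorem zh (hCMH : T_CMH) : T_ZH := by
  intro F hF
  refine ⟨?_, ?_, ?_, ?_, ?_, ?_⟩
  · intro q p hp t ht
    have hZ : ∀ τ, (ZZ τ · q) = fun p => E2 τ (cm p q) + E2 τ (cm p (q.1, q.2 + Real.pi)) := by
      intro τ
      funext z
      unfold ZZ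
      rw [cp_eq]
    refine ⟨?_, ?_⟩
    · rw [hZ]
      exact ((contDiff_gauss t q).add (contDiff_gauss t _)).contDiffAt
    · rw [hZ, LB_add F (contDiff_gauss t q) (contDiff_gauss t _) p]
      have h1 := (hCMH F hF q p hp t ht).2
      have h2 := (hCMH F hF (q.1, q.2 + Real.pi) p hp t ht).2
      have h3 : (fun τ => ZZ τ p q) = fun τ => E2 τ (cm p q) + E2 τ (cm p (q.1, q.2 + Real.pi)) := by
        funext τ
        unfold ZZ
        rw [cp_eq]
      rw [h3]
      exact h1.add h2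
  · intro t p q
    have h1 : Real.cos (p.2 - q.2) = Real.cos (q.2 - p.2) := by
      rw [← Real.cos_neg, neg_sub]
    unfold ZZ cm cp
    rw [h1]
    congr 2 <;> ring
  · intro t p q
    have h1 : p.2 + Real.pi - q.2 = p.2 - q.2 + Real.pi := by ring
    unfold ZZ cm cp
    simp only
    rw [h1, Real.cos_add_pi, add_comm]
    congr 2 <;> ring
  · intro q
    have h0 : ∀ z ∈ (Ioi 0 ×ˢ univ : Set (ℝ × X)), 4 * Real.pi * z.1 ≠ 0 := by
      intro z hz
      have h1 : 0 < z.1 := hz.1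
      have := Real.pi_pos
      positivity
    have h0' : ∀ z ∈ (Ioi 0 ×ˢ univ : Set (ℝ × X)), 4 * z.1 ≠ 0 := by
      intro z hz
      have h1 : 0 < z.1 := hz.1
      positivity
    unfold ZZ E2 cm cp
    refine ContinuousOn.add ?_ ?_
    · refine ContinuousOn.mul (ContinuousOn.inv₀ (by fun_prop) h0) ?_
      refine ContinuousOn.rexp (ContinuousOn.neg (ContinuousOn.div (by fun_prop) (by fun_prop) h0'))
    · refine ContinuousOn.mul (ContinuousOn.inv₀ (by fun_prop) h0) ?_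
      refine ContinuousOn.rexp (ContinuousOn.neg (ContinuousOn.div (by fun_prop) (by fun_prop) h0'))
  · intro t ht p q
    unfold ZZ
    have h1 := E2_pos' ht (cm p q)
    have h2 := E2_pos' ht (cp p q)
    constructor
    · rcases min_choice (cm p q) (cp p q) with h | h <;> rw [h] <;> linarith
    · have h3 := E2_anti ht (min_le_left (cm p q) (cp p q))
      have h4 := E2_anti ht (min_le_right (cm p q) (cp p q))
      linarith
  · intro q t1 ht1 T hT ε hε
    have hpi := Real.pi_pos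
    obtain ⟨x0, hx0, hx1⟩ : ∃ x0 : ℝ, 0 ≤ x0 ∧ 2 * ((4 * Real.pi * t1)⁻¹ * Real.exp (-x0)) ≤ ε := by
      have h1 : Tendsto (fun x : ℝ => 2 * ((4 * Real.pi * t1)⁻¹ * Real.exp (-x))) atTop (𝓝 0) := by
        have := (Real.tendsto_exp_neg_atTop_nhds_zero.const_mul ((4 * Real.pi * t1)⁻¹)).const_mul 2
        simpa using this
      have h2 := h1.eventually (gt_mem_nhds hε)
      obtain ⟨x0, h3, h4⟩ := (h2.and (eventually_ge_atTop 0)).exists
      exact ⟨x0, h4, h3.le⟩
    refine ⟨|q.1| + max 1 (4 * T * x0), ?_⟩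
    intro t ht p hp
    have ht0 : 0 < t := lt_of_lt_of_le ht1 ht.1
    have hp0 : 0 ≤ p.1 := by
      have h1 := abs_nonneg q.1
      have h2 := le_max_left 1 (4 * T * x0)
      linarith
    have hD1 : 1 ≤ p.1 - |q.1| := by
      have h2 := le_max_left 1 (4 * T * x0)
      linarith
    have hD2 : 4 * T * x0 ≤ p.1 - |q.1| := by
      have h2 := le_max_right 1 (4 * T * x0)
      linarith
    have hD3 : 4 * T * x0 ≤ (p.1 - |q.1|) ^ 2 := by nlinarith
    have key : ∀ r, (p.1 - |q.1|) ^ 2 ≤ r → E2 t r ≤ (4 * Real.pi * t1)⁻¹ * Real.exp (-x0) := by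
      intro r hr
      unfold E2
      have h1 : (4 * Real.pi * t)⁻¹ ≤ (4 * Real.pi * t1)⁻¹ := by
        apply inv_anti₀ (by positivity)
        exact mul_le_mul_of_nonneg_left ht.1 (by positivity)
      have h2 : Real.exp (-(r / (4 * t))) ≤ Real.exp (-x0) := by
        apply Real.exp_le_exp.2
        rw [neg_le_neg_iff, le_div_iff₀ (by positivity)]
        have h3 : x0 * (4 * t) ≤ x0 * (4 * T) := mul_le_mul_of_nonneg_left (by linarith [ht.2]) hx0
        linarith
      exact mul_le_mul h1 h2 (Real.exp_pos _).le (by positivity)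
    unfold ZZ
    have h1 := key (cm p q) (cm_ge p q hp0)
    have h2 := key (cp p q) (cp_ge p q hp0)
    linarith

end Pool.Agent.H2.HK
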