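import Mathlib
import Pool.Agent.H96.HK.Basic

/-!
# MP_e94f6f_an, modules CMP and CMPE: comparison principles with jets
-/

open MeasureTheory Set Filter Topology
open scoped ContDiff

namespace Pool.Agent.H2.HK

open Pool.Agent.H96.HK

/-- second order test at a maximum -/
theorem jet1 {S1 S2 : ℝ} (H : ∀ ε > 0, ∀ᶠ h in 𝓝 (0 : ℝ), S1 * h + S2 * h ^ 2 / 2 ≤ ε * h ^ 2) :
    S1 = 0 ∧ S2 ≤ 0 := by
  constructor
  · by_contra hS
    obtain ⟨δ, hδ, hH⟩ := Metric.eventually_nhds_iff.1 (H 1 one_pos)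
    have hS' : 0 < |S1| := abs_pos.2 hS
    set h : ℝ := min (δ / 2) (|S1| / (2 * (1 + |S2|))) with hh
    have h0 : 0 < h := lt_min (by positivity) (by positivity)
    have h1 : h < δ := lt_of_le_of_lt (min_le_left _ _) (by linarith)
    have h2 : h ≤ |S1| / (2 * (1 + |S2|)) := min_le_right _ _
    have e1 := hH (y := h) (by rw [dist_zero_right, Real.norm_eq_abs, abs_of_pos h0]; exact h1)
    have e2 := hH (y := -h) (by
      rw [dist_zero_right, Real.norm_eq_abs, abs_neg, abs_of_pos h0]; exact h1)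
    have e3 : |S1| * h ≤ (1 + |S2|) * h ^ 2 := by
      rcases abs_cases S1 with ⟨h3, -⟩ | ⟨h3, -⟩ <;> rw [h3] <;>
        nlinarith [neg_abs_le S2, sq_nonneg h, mul_nonneg (abs_nonneg S2) (sq_nonneg h)]
    have e4 : |S1| ≤ (1 + |S2|) * h := by
      have : |S1| * h ≤ (1 + |S2|) * h * h := by linarith [e3, sq h]
      exact le_of_mul_le_mul_right this h0
    have e5 : (1 + |S2|) * h ≤ |S1| / 2 := by
      calc (1 + |S2|) * h ≤ (1 + |S2|) * (|S1| / (2 * (1 + |S2|))) :=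
            mul_le_mul_of_nonneg_left h2 (by positivity)
        _ = |S1| / 2 := by field_simp
    linarith
  · by_contra hS
    push Not at hS
    obtain ⟨δ, hδ, hH⟩ := Metric.eventually_nhds_iff.1 (H (S2 / 4) (by positivity))
    have h0 : 0 < δ / 2 := by positivity
    have e1 := hH (y := δ / 2) (by
      rw [dist_zero_right, Real.norm_eq_abs, abs_of_pos h0]; linarith)
    have e2 := hH (y := -(δ / 2)) (by
      rw [dist_zero_right, Real.norm_eq_abs, abs_neg, abs_of_pos h0]; linarith)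
    nlinarith [sq_nonneg (δ / 2), mul_pos hS (pow_pos h0 2)]

/-- no subjets at maxima of `v - m (t - t0)` -/
theorem jet_contra {F : ℝ → ℝ} {v : ℝ → X → ℝ} {t0 t1 m : ℝ} {p : X} (hm : 0 < m) (ht : t0 < t1)
    (hT : ∀ t ∈ Icc t0 t1, v t p - m * (t - t0) ≤ v t1 p - m * (t1 - t0))
    (hS : ∀ᶠ h in 𝓝 (0 : ℝ), v t1 (p.1 + h, p.2) ≤ v t1 p)
    (hP : ∀ᶠ h in 𝓝 (0 : ℝ), v t1 (p.1, p.2 + h) ≤ v t1 p)
    (hJ : SubJet F v t1 p) : False := by
  obtain ⟨T1, S1, S2, P1, P2, h1, h2, h3, h4⟩ := hJ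
  have hS' : S1 = 0 ∧ S2 ≤ 0 := by
    refine jet1 fun ε hε => ?_
    filter_upwards [h2 ε hε, hS] with h a b
    linarith
  have hP' : P1 = 0 ∧ P2 ≤ 0 := by
    refine jet1 fun ε hε => ?_
    filter_upwards [h3 ε hε, hP] with h a b
    linarith
  have hT1 : m ≤ T1 := by
    refine le_of_forall_pos_le_add fun ε hε => ?_
    have h5 : ∀ᶠ h in 𝓝[>] (0 : ℝ), h ∈ Ioo 0 (t1 - t0) :=
      Ioo_mem_nhdsGT (by linarith)
    obtain ⟨h, h6, h7⟩ := ((h1 ε hε).and h5).exists
    have h8 := hT (t1 - h) ⟨by linarith [h7.2], by linarith [h7.1]⟩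
    have h9 : m * h ≤ (T1 + ε) * h := by linarith
    exact le_of_mul_le_mul_right h9 h7.1
  have h5 : P2 / F p.1 ^ 2 ≤ 0 := div_nonpos_of_nonpos_of_nonneg hP'.2 (sq_nonneg _)
  rw [hS'.1, mul_zero] at h4
  linarith [hS'.2]

theorem exists_gk (p : X) : ∃ k : ℤ, (gk k p).2 ∈ Icc 0 (Real.pi / 2) := by
  have hpi : 0 < Real.pi / 2 := by positivity
  refine ⟨-⌊p.2 / (Real.pi / 2)⌋, ?_⟩
  rw [gk_snd]
  push_cast
  have h1 := Int.floor_le (p.2 / (Real.pi / 2))
  have h2 := (Int.lt_floor_add_one (p.2 / (Real.pi / 2))).le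
  rw [le_div_iff₀ hpi] at h1
  rw [div_le_iff₀ hpi] at h2
  constructor <;> linarith

theorem cmp : T_CMP := by
  intro F t0 T v hF ht0 hcont hinv hdec hinit hjet t ht p
  by_contra hcon
  push Not at hcon
  set V := v t p with hV
  set m : ℝ := V / (2 * (T - t0)) with hm
  have hT0 : 0 < T - t0 := by linarith
  have hm0 : 0 < m := by positivity
  have hmT : m * (T - t0) = V / 2 := by rw [hm]; field_simp
  obtain ⟨R, hR⟩ := hdec (V / 4) (by positivity)
  set w : ℝ × X → ℝ := fun z => v z.1 z.2 - m * (z.1 - t0) with hw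
  set K : Set (ℝ × X) := Icc t0 T ×ˢ (Icc (-R) R ×ˢ Icc 0 (Real.pi / 2)) with hK
  have hKc : IsCompact K := isCompact_Icc.prod (isCompact_Icc.prod isCompact_Icc)
  have hKs : K ⊆ Icc t0 T ×ˢ (univ : Set X) := fun z hz => ⟨hz.1, mem_univ _⟩
  have hwc : ContinuousOn w K := by
    refine (hcont.mono hKs).sub ?_
    fun_prop
  -- reduction to the compact set
  have hred : ∀ t' ∈ Icc t0 T, ∀ p' : X, |p'.1| < R → ∃ z ∈ K, w z = w (t', p') := by
    intro t' ht' p' hp'
    obtain ⟨k, hk⟩ := exists_gk p'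
    refine ⟨(t', gk k p'), ⟨ht', ?_, hk⟩, ?_⟩
    · have := abs_le.1 (show |(gk k p').1| ≤ R by rw [abs_gk_fst]; exact hp'.le)
      exact this
    · simp only [hw]
      rw [(hinv t' ht').gk k p']
  have hpR : |p.1| < R := by
    by_contra h
    push Not at h
    have := hR t ht p h
    linarith
  obtain ⟨z0, hz0, hz0w⟩ := hred t ht p hpR
  obtain ⟨z1, hz1, hmax⟩ := hKc.exists_isMaxOn ⟨z0, hz0⟩ hwc
  have hw0 : V / 2 ≤ w (t, p) := by
    simp only [hw]
    have : m * (t - t0) ≤ m * (T - t0) := mul_le_mul_of_nonneg_left (by linarith [ht.2]) hm0.le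
    linarith
  have hw1 : w (t, p) ≤ w z1 := by rw [← hz0w]; exact hmax hz0
  have hglob : ∀ t' ∈ Icc t0 T, ∀ p' : X, w (t', p') ≤ w z1 := by
    intro t' ht' p'
    rcases lt_or_ge |p'.1| R with h | h
    · obtain ⟨z, hz, hzw⟩ := hred t' ht' p' h
      rw [← hzw]
      exact hmax hz
    · have h1 := hR t' ht' p' h
      have h2 : w (t', p') ≤ V / 4 := by
        simp only [hw]
        have : 0 ≤ m * (t' - t0) := mul_nonneg hm0.le (by linarith [ht'.1])
        linarith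
      linarith
  have ht1 : t0 < z1.1 := by
    rcases eq_or_lt_of_le hz1.1.1 with h | h
    · exfalso
      have h1 : w z1 ≤ 0 := by
        simp only [hw]
        rw [← h, sub_self, mul_zero, sub_zero]
        exact hinit z1.2
      linarith
    · exact h
  have hv1 : 0 < v z1.1 z1.2 := by
    have h1 : w z1 = v z1.1 z1.2 - m * (z1.1 - t0) := rfl
    have : 0 ≤ m * (z1.1 - t0) := mul_nonneg hm0.le (by linarith)
    linarith
  obtain ⟨k, hk⟩ := hjet z1.1 ⟨ht1, hz1.1.2⟩ z1.2 hv1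
  have hv2 : v z1.1 (gk k z1.2) = v z1.1 z1.2 := (hinv z1.1 hz1.1).gk k z1.2
  have hw2 : w (z1.1, gk k z1.2) = w z1 := by
    simp only [hw]
    rw [hv2]
  refine jet_contra hm0 ht1 ?_ ?_ ?_ hk
  · intro t' ht'
    have h1 := hglob t' ⟨ht'.1, ht'.2.trans hz1.1.2⟩ (gk k z1.2)
    rw [← hw2] at h1
    exact h1
  · refine Eventually.of_forall fun h => ?_
    have h1 := hglob z1.1 hz1.1 ((gk k z1.2).1 + h, (gk k z1.2).2)
    rw [← hw2] at h1
    simp only [hw] at h1
    linarith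
  · refine Eventually.of_forall fun h => ?_
    have h1 := hglob z1.1 hz1.1 ((gk k z1.2).1, (gk k z1.2).2 + h)
    rw [← hw2] at h1
    simp only [hw] at h1
    linarith

theorem cmpe : T_CMPE := by
  intro F a t0 T v hF ht0 hcont hper hdec hinit hbd hjet t ht p hpa
  by_contra hcon
  push Not at hcon
  set V := v t p with hV
  set m : ℝ := V / (2 * (T - t0)) with hm
  have hT0 : 0 < T - t0 := by linarith
  have hm0 : 0 < m := by positivity
  have hmT : m * (T - t0) = V / 2 := by rw [hm]; field_simp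
  obtain ⟨R, hR⟩ := hdec (V / 4) (by positivity)
  set w : ℝ × X → ℝ := fun z => v z.1 z.2 - m * (z.1 - t0) with hw
  set K : Set (ℝ × X) := Icc t0 T ×ˢ (Icc a R ×ˢ Icc 0 Real.pi) with hK
  have hKc : IsCompact K := isCompact_Icc.prod (isCompact_Icc.prod isCompact_Icc)
  have hKs : K ⊆ Icc t0 T ×ˢ {p : X | a ≤ p.1} := fun z hz => ⟨hz.1, hz.2.1.1⟩
  have hwc : ContinuousOn w K := by
    refine (hcont.mono hKs).sub ?_
    fun_prop
  -- reduction to the compact set
  have hred : ∀ t' ∈ Icc t0 T, ∀ p' : X, a ≤ p'.1 → p'.1 < R → ∃ z ∈ K, w z = w (t', p') := by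
    intro t' ht' p' hpa' hp'
    have hp : Function.Periodic (fun x => v t' (p'.1, x)) Real.pi := fun x => hper t' ht' (p'.1, x)
    obtain ⟨y, hy, hy2⟩ := hp.exists_mem_Ico₀ Real.pi_pos p'.2
    refine ⟨(t', (p'.1, y)), ⟨ht', ⟨hpa', hp'.le⟩, ⟨hy.1, hy.2.le⟩⟩, ?_⟩
    simp only [hw]
    have : v t' (p'.1, p'.2) = v t' (p'.1, y) := hy2
    rw [← this]
  have hpR : p.1 < R := by
    by_contra h
    push Not at h
    have := hR t ht p h
    linarith
  obtain ⟨z0, hz0, hz0w⟩ := hred t ht p hpa hpR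
  obtain ⟨z1, hz1, hmax⟩ := hKc.exists_isMaxOn ⟨z0, hz0⟩ hwc
  have hw0 : V / 2 ≤ w (t, p) := by
    simp only [hw]
    have : m * (t - t0) ≤ m * (T - t0) := mul_le_mul_of_nonneg_left (by linarith [ht.2]) hm0.le
    linarith
  have hw1 : w (t, p) ≤ w z1 := by rw [← hz0w]; exact hmax hz0
  have hglob : ∀ t' ∈ Icc t0 T, ∀ p' : X, a ≤ p'.1 → w (t', p') ≤ w z1 := by
    intro t' ht' p' hpa'
    rcases lt_or_ge p'.1 R with h | h
    · obtain ⟨z, hz, hzw⟩ := hred t' ht' p' hpa' h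
      rw [← hzw]
      exact hmax hz
    · have h1 := hR t' ht' p' h
      have h2 : w (t', p') ≤ V / 4 := by
        simp only [hw]
        have : 0 ≤ m * (t' - t0) := mul_nonneg hm0.le (by linarith [ht'.1])
        linarith
      linarith
  have ht1 : t0 < z1.1 := by
    rcases eq_or_lt_of_le hz1.1.1 with h | h
    · exfalso
      have h1 : w z1 ≤ 0 := by
        simp only [hw]
        rw [← h, sub_self, mul_zero, sub_zero]
        exact hinit z1.2 hz1.2.1.1
      linarith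
    · exact h
  have hv1 : 0 < v z1.1 z1.2 := by
    have h1 : w z1 = v z1.1 z1.2 - m * (z1.1 - t0) := rfl
    have : 0 ≤ m * (z1.1 - t0) := mul_nonneg hm0.le (by linarith)
    linarith
  have ha1 : a < z1.2.1 := by
    rcases eq_or_lt_of_le hz1.2.1.1 with h | h
    · exfalso
      have h1 := hbd z1.1 hz1.1 z1.2.2
      rw [h] at h1
      have h2 : v z1.1 (z1.2.1, z1.2.2) = v z1.1 z1.2 := rfl
      linarith
    · exact h
  refine jet_contra hm0 ht1 ?_ ?_ ?_ (hjet z1.1 ⟨ht1, hz1.1.2⟩ z1.2 ha1 hv1)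
  · intro t' ht'
    exact hglob t' ⟨ht'.1, ht'.2.trans hz1.1.2⟩ z1.2 ha1.le
  · have hev : ∀ᶠ h in 𝓝 (0 : ℝ), a < z1.2.1 + h := by
      have : Tendsto (fun h : ℝ => z1.2.1 + h) (𝓝 0) (𝓝 (z1.2.1 + 0)) := by
        exact (continuous_const.add continuous_id).tendsto 0
      rw [add_zero] at this
      exact this.eventually (lt_mem_nhds ha1)
    filter_upwards [hev] with h hh
    have h1 := hglob z1.1 hz1.1 (z1.2.1 + h, z1.2.2) hh.le
    simp only [hw] at h1
    linarith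
  · refine Eventually.of_forall fun h => ?_
    have h1 := hglob z1.1 hz1.1 (z1.2.1, z1.2.2 + h) ha1.le
    simp only [hw] at h1
    linarith

end Pool.Agent.H2.HK
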