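import Mathlib
import Pool.Agent.H96.HK.TargetsN
import Pool.Agent.H2.HK.CMP

/-!
# MP_e94f6f_an, module CMN: comparison on the product
-/

open MeasureTheory Set Filter Topology
open scoped ContDiff

namespace Pool.Agent.H2.HK

open Pool.Agent.H96.HK

/-- second derivatives at a maximum -/
theorem pd_max {d : ℕ} {f : E d → ℝ} {x : E d} (hf : ContDiffAt ℝ 2 f x) (hmax : ∀ y, f y ≤ f x)
    (i : Fin d) : pd i f x = 0 ∧ pd i (pd i f) x ≤ 0 := by
  have hloc : IsLocalMax f x := Eventually.of_forall hmax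
  have h0 : pd i f x = 0 := by
    unfold pd
    rw [hloc.fderiv_eq_zero]
    rfl
  refine ⟨h0, ?_⟩
  set ei : E d := EuclideanSpace.single i 1 with hei
  set g : ℝ → ℝ := fun h => f (x + h • ei) with hg
  have hline : ∀ h : ℝ, HasDerivAt (fun h : ℝ => x + h • ei) ei h := by
    intro h
    have := ((hasDerivAt_id h).smul_const ei).const_add x
    simpa using this
  have hlim : Tendsto (fun h : ℝ => x + h • ei) (𝓝 0) (𝓝 x) := by
    have : Continuous (fun h : ℝ => x + h • ei) := by fun_prop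
    have h2 := this.tendsto 0
    simpa using h2
  have hev : ∀ᶠ y in 𝓝 x, DifferentiableAt ℝ f y := by
    have := hf.eventually (by simp)
    filter_upwards [this] with y hy
    exact hy.differentiableAt (by norm_num)
  have hg1 : ∀ᶠ h in 𝓝 (0 : ℝ), deriv g h = pd i f (x + h • ei) := by
    filter_upwards [hlim.eventually hev] with h hh
    exact (hh.hasFDerivAt.comp_hasDerivAt h (hline h)).deriv
  have hpd : DifferentiableAt ℝ (pd i f) x := by
    have h1 : ContDiffAt ℝ 1 (fderiv ℝ f) x := hf.fderiv_right (by norm_num)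
    have h2 : DifferentiableAt ℝ (fderiv ℝ f) x := h1.differentiableAt (by norm_num)
    exact h2.clm_apply (differentiableAt_const _)
  have hg2 : deriv (deriv g) 0 = pd i (pd i f) x := by
    have h1 : deriv g =ᶠ[𝓝 0] fun h => pd i f (x + h • ei) := hg1
    rw [h1.deriv_eq]
    have h2 : HasFDerivAt (pd i f) (fderiv ℝ (pd i f) x) (x + (0 : ℝ) • ei) := by
      rw [zero_smul, add_zero]
      exact hpd.hasFDerivAt
    exact (h2.comp_hasDerivAt 0 (hline 0)).deriv
  have hd0 : deriv g 0 = 0 := by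
    have := hg1.self_of_nhds
    rw [zero_smul, add_zero, h0] at this
    exact this
  have hgc : ContinuousAt g 0 := by
    have h1 : ContinuousAt f (x + (0 : ℝ) • ei) := by
      rw [zero_smul, add_zero]
      exact hf.continuousAt
    exact ContinuousAt.comp (f := fun h : ℝ => x + h • ei) h1
      (by fun_prop)
  by_contra hpos
  push Not at hpos
  rw [← hg2] at hpos
  have hmin := isLocalMin_of_deriv_deriv_pos hpos hd0 hgc
  have hconst : g =ᶠ[𝓝 0] fun _ => g 0 := by
    filter_upwards [hmin] with h hh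
    refine le_antisymm ?_ hh
    have := hmax (x + h • ei)
    simp only [hg, zero_smul, add_zero]
    exact this
  have h1 : deriv g =ᶠ[𝓝 0] deriv (fun _ : ℝ => g 0) := hconst.deriv
  have h2 : deriv (deriv g) 0 = 0 := by
    rw [h1.deriv_eq]
    simp
  linarith

theorem zpow_inv {n : ℕ} {f : E (n + 2) → ℝ} (h : ∀ x, f (gam n x) = f x) (k : ℤ) :
    ∀ x, f ((gam n ^ k) x) = f x := by
  induction k using Int.induction_on with
  | zero => intro x; simp
  | succ k ih =>
    intro x
    rw [zpow_add_one, Homeomorph.mul_apply, ih, h]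
  | pred k ih =>
    intro x
    rw [zpow_sub_one, Homeomorph.mul_apply, ih, ← h ((gam n)⁻¹ x), ← Homeomorph.mul_apply,
      mul_inv_cancel, Homeomorph.one_apply]

theorem cmn (hLAP : T_LAP) (hGAM : T_GAM) : T_CMN := by
  intro F hF n t0 T v ht0 hcont hinv hdec hinit hcl t ht x
  by_contra hcon
  push Not at hcon
  set V := v t x with hV
  set m : ℝ := V / (2 * (T - t0)) with hm
  have hT0 : 0 < T - t0 := by linarith
  have hm0 : 0 < m := by positivity
  have hmT : m * (T - t0) = V / 2 := by rw [hm]; field_simp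
  obtain ⟨R, hR⟩ := hdec (V / 4) (by positivity)
  set w : ℝ × E (n + 2) → ℝ := fun z => v z.1 z.2 - m * (z.1 - t0) with hw
  set B : Set (E (n + 2)) := (WithLp.toLp 2) '' (Set.pi univ fun i : Fin (n + 2) =>
    if i = 1 then Icc 0 (Real.pi / 2) else Icc (-R) R) with hB
  have hBc : IsCompact B := by
    refine IsCompact.image (isCompact_univ_pi fun i => ?_) (PiLp.continuous_toLp 2 _)
    by_cases hi : i = 1
    · rw [if_pos hi]; exact isCompact_Icc
    · rw [if_neg hi]; exact isCompact_Icc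
  set K : Set (ℝ × E (n + 2)) := Icc t0 T ×ˢ B with hK
  have hKc : IsCompact K := isCompact_Icc.prod hBc
  have hwc : ContinuousOn w K := by
    refine (hcont.mono fun z hz => ⟨hz.1, mem_univ _⟩).sub ?_
    fun_prop
  have hred : ∀ t' ∈ Icc t0 T, ∀ x' : E (n + 2),
      ¬ (R ≤ |x' 0| ∨ ∃ i : Fin n, R ≤ |x' i.succ.succ|) → ∃ z ∈ K, w z = w (t', x') := by
    intro t' ht' x' hx'
    push Not at hx'
    obtain ⟨k, hk⟩ := exists_gk (pX x')
    obtain ⟨h1, h2⟩ := (hGAM n).1 k x'
    refine ⟨(t', (gam n ^ k) x'), ⟨ht', ?_⟩, ?_⟩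
    · refine ⟨WithLp.ofLp ((gam n ^ k) x'), ?_, rfl⟩
      intro i _
      simp only
      refine Fin.cases ?_ (fun j => Fin.cases ?_ (fun l => ?_) j) i
      · rw [if_neg (by simp)]
        have h3 : ((gam n ^ k) x') 0 = (gk k (pX x')).1 := by rw [← h1]; rfl
        have h4 : |((gam n ^ k) x') 0| ≤ R := by
          rw [h3, abs_gk_fst]
          exact hx'.1.le
        exact abs_le.1 h4
      · rw [if_pos (by rfl)]
        have h3 : ((gam n ^ k) x') 1 = (gk k (pX x')).2 := by rw [← h1]; rfl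
        have h4 : ((gam n ^ k) x') 1 ∈ Icc 0 (Real.pi / 2) := by rw [h3]; exact hk
        exact h4
      · rw [if_neg (by
          intro h
          have := congrArg Fin.val h
          simp at this)]
        have h4 : |((gam n ^ k) x') l.succ.succ| ≤ R := by
          rw [h2 l]
          exact (hx'.2 l).le
        exact abs_le.1 h4
    · simp only [hw]
      rw [zpow_inv (hinv t' ht') k x']
  have hxR : ¬ (R ≤ |x 0| ∨ ∃ i : Fin n, R ≤ |x i.succ.succ|) := by
    intro h
    have := hR t ht x h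
    linarith
  obtain ⟨z0, hz0, hz0w⟩ := hred t ht x hxR
  obtain ⟨z1, hz1, hmax⟩ := hKc.exists_isMaxOn ⟨z0, hz0⟩ hwc
  have hw0 : V / 2 ≤ w (t, x) := by
    simp only [hw]
    have : m * (t - t0) ≤ m * (T - t0) := mul_le_mul_of_nonneg_left (by linarith [ht.2]) hm0.le
    linarith
  have hw1 : w (t, x) ≤ w z1 := by rw [← hz0w]; exact hmax hz0
  have hglob : ∀ t' ∈ Icc t0 T, ∀ x' : E (n + 2), w (t', x') ≤ w z1 := by
    intro t' ht' x'
    by_cases h : R ≤ |x' 0| ∨ ∃ i : Fin n, R ≤ |x' i.succ.succ|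
    · have h1 := hR t' ht' x' h
      have h2 : w (t', x') ≤ V / 4 := by
        simp only [hw]
        have : 0 ≤ m * (t' - t0) := mul_nonneg hm0.le (by linarith [ht'.1])
        linarith
      linarith
    · obtain ⟨z, hz, hzw⟩ := hred t' ht' x' h
      rw [← hzw]
      exact hmax hz
  have ht1 : t0 < z1.1 := by
    rcases eq_or_lt_of_le hz1.1.1 with h | h
    · exfalso
      have h1 : w z1 ≤ 0 := by
        simp only [hw]
        rw [← h, sub_self, mul_zero, sub_zero]
        exact hinit z1.2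
      linarith
    · exact h
  have hv1 : 0 < v z1.1 z1.2 := by
    have h1 : w z1 = v z1.1 z1.2 - m * (z1.1 - t0) := rfl
    have : 0 ≤ m * (z1.1 - t0) := mul_nonneg hm0.le (by linarith)
    linarith
  obtain ⟨hc2, D, hD, hDle⟩ := hcl z1.1 ⟨ht1, hz1.1.2⟩ z1.2 hv1
  have hsp : ∀ y, v z1.1 y ≤ v z1.1 z1.2 := by
    intro y
    have h1 := hglob z1.1 hz1.1 y
    simp only [hw] at h1
    linarith
  have hlap : lap (gF F n) (v z1.1) z1.2 ≤ 0 := by
    rw [(hLAP F hF n).2 (v z1.1) z1.2 hc2, (pd_max hc2 hsp 0).1, mul_zero, add_zero]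
    have h1 := (pd_max hc2 hsp 0).2
    have h2 := div_nonpos_of_nonpos_of_nonneg (pd_max hc2 hsp 1).2 (sq_nonneg (F (z1.2 0)))
    have h3 : ∑ i : Fin n, pd i.succ.succ (pd i.succ.succ (v z1.1)) z1.2 ≤ 0 :=
      Finset.sum_nonpos fun i _ => (pd_max hc2 hsp i.succ.succ).2
    linarith
  have hDm : m ≤ D := by
    by_contra h
    push Not at h
    have h1 := hD.tendsto_slope.eventually (gt_mem_nhds h)
    have h2 : ∀ᶠ τ in 𝓝[<] z1.1, slope (fun τ => v τ z1.2) z1.1 τ < m :=
      h1.filter_mono (nhdsWithin_mono _ fun τ hτ => ne_of_lt hτ)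
    have h3 : ∀ᶠ τ in 𝓝[<] z1.1, τ ∈ Ioo t0 z1.1 := Ioo_mem_nhdsLT ht1
    obtain ⟨τ, h4, h5⟩ := (h2.and h3).exists
    have h6 := hglob τ ⟨h5.1.le, h5.2.le.trans hz1.1.2⟩ z1.2
    simp only [hw] at h6
    rw [slope_def_field, div_lt_iff_of_neg (by linarith [h5.2])] at h4
    linarith
  linarith

end Pool.Agent.H2.HK
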