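import Mathlib
import Pool.Agent.H96.HK.Basic

/-!
# MP_e94f6f_an, modules HCT, MIN, SG: consequences of the comparison principle
-/

open MeasureTheory Set Filter Topology
open scoped ContDiff

namespace Pool.Agent.H2.HK

open Pool.Agent.H96.HK

/-- comparison with a nonnegative constant -/
theorem cmp_const (hC : T_CMP) (hJ : T_JET) {F : ℝ → ℝ} (hF : Prof F) {T : ℝ} (hT : 0 < T)
    (v : ℝ → X → ℝ) {c : ℝ} (hc : 0 ≤ c)
    (hcont : ContinuousOn (fun z : ℝ × X => v z.1 z.2) (Icc 0 T ×ˢ univ))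
    (hinv : ∀ t ∈ Icc 0 T, GInv (v t))
    (hdec : ∀ ε > 0, ∃ R, ∀ t ∈ Icc 0 T, ∀ p : X, R ≤ |p.1| → v t p ≤ ε)
    (hinit : ∀ p, v 0 p ≤ c)
    (hjet : ∀ t ∈ Ioc 0 T, ∀ p, c < v t p → ∃ k, SubJet F v t (gk k p)) :
    ∀ t ∈ Icc 0 T, ∀ p, v t p ≤ c := by
  have h := hC F 0 T (fun t p => v t p + -c) hF.pos hT (hcont.add continuousOn_const) ?_ ?_ ?_ ?_
  · intro t ht p
    have := h t ht p
    try simp only at this
    linarith
  · intro t ht p
    try simp only
    rw [hinv t ht p]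
  · intro ε hε
    obtain ⟨R, hR⟩ := hdec ε hε
    exact ⟨R, fun t ht p hp => by
      have := hR t ht p hp
      try simp only
      linarith⟩
  · intro p
    have := hinit p
    try simp only
    linarith
  · intro t ht p hp
    try simp only at hp
    obtain ⟨k, hk⟩ := hjet t ht p (by linarith)
    exact ⟨k, hJ.add F v (fun _ _ => -c) t (gk k p) hk (hJ.cst F (-c) t (gk k p))⟩

theorem nice_jet (hJ : T_JET) {F : ℝ → ℝ} {u : ℝ → X → ℝ} (hu : Cl F u) {t : ℝ} (ht : 0 < t)
    (p : X) : SubJet F u t p :=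
  hJ.cls F u t p _ (hu.c2 t ht).contDiffAt (hu.heat t ht p) le_rfl

theorem nice_jet' (hJ : T_JET) {F : ℝ → ℝ} {u : ℝ → X → ℝ} (hu : Cl F u) {t : ℝ} (ht : 0 < t)
    (p : X) : SubJet F (fun t p => -u t p) t p :=
  hJ.cls' F u t p _ (hu.c2 t ht).contDiffAt (hu.heat t ht p) le_rfl

theorem nice_contOn {F : ℝ → ℝ} {u : ℝ → X → ℝ} (hu : Nice F u) (T : ℝ) :
    ContinuousOn (fun z : ℝ × X => u z.1 z.2) (Icc 0 T ×ˢ univ) :=
  hu.cont.mono fun z hz => ⟨hz.1.1, hz.2⟩

theorem nice_le (hC : T_CMP) (hJ : T_JET) {F : ℝ → ℝ} (hF : Prof F) {u : ℝ → X → ℝ}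
    (hu : Nice F u) {c : ℝ} (hc : 0 ≤ c) (h0 : ∀ p, |u 0 p| ≤ c) {t : ℝ} (ht : 0 < t) (p : X) :
    |u t p| ≤ c := by
  rw [abs_le]
  constructor
  · have h := cmp_const hC hJ hF ht (fun t p => -u t p) hc (nice_contOn hu t).neg
      (fun s hs p => congrArg Neg.neg (hu.inv s hs.1 p)) ?_
      (fun p => by have := (abs_le.1 (h0 p)).1; linarith)
      (fun s hs p _ => ⟨0, nice_jet' hJ hu.cl hs.1 _⟩) t ⟨ht.le, le_rfl⟩ p
    · try simp only at h
      linarith
    · intro ε hε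
      obtain ⟨R, hR⟩ := hu.dec t ht ε hε
      exact ⟨R, fun s hs p hp => by
        have := (abs_le.1 (hR s hs p hp)).1
        try simp only
        linarith⟩
  · refine cmp_const hC hJ hF ht u hc (nice_contOn hu t) (fun s hs => hu.inv s hs.1) ?_
      (fun p => (abs_le.1 (h0 p)).2) (fun s hs p _ => ⟨0, nice_jet hJ hu.cl hs.1 _⟩) t
      ⟨ht.le, le_rfl⟩ p
    intro ε hε
    obtain ⟨R, hR⟩ := hu.dec t ht ε hε
    exact ⟨R, fun s hs p hp => (abs_le.1 (hR s hs p hp)).2⟩

theorem hct (hJ : T_JET) (hC : T_CMP) : T_HCT := by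
  intro F H hF hH ψ hψ hψc M hM t ht p
  have hM0 : 0 ≤ M := (abs_nonneg _).trans (hM 0)
  refine le_of_forall_pos_le_add fun ε hε => ?_
  obtain ⟨u, hu, hu0, hu1⟩ := hH.apx ψ hψ hψc t ht (ε / 2) (by positivity)
  have h1 : |u t p| ≤ M + ε / 2 := by
    refine nice_le hC hJ hF hu (by positivity) (fun q => ?_) ht p
    have h2 := hu0 q
    have h3 := hM q
    have h4 : |u 0 q| ≤ |u 0 q - ∑' k : ℤ, ψ (gk k q)| + |∑' k : ℤ, ψ (gk k q)| := by
      have := abs_add_le (u 0 q - ∑' k : ℤ, ψ (gk k q)) (∑' k : ℤ, ψ (gk k q))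
      rwa [sub_add_cancel] at this
    linarith
  have h2 := hu1 t ⟨ht, le_rfl⟩ p
  have h3 : |∫ z : X, H t p z * ψ z * F z.1| ≤ |u t p - ∫ z : X, H t p z * ψ z * F z.1| + |u t p| := by
    have := abs_add_le (-(u t p - ∫ z : X, H t p z * ψ z * F z.1)) (u t p)
    rw [abs_neg] at this
    have h4 : -(u t p - ∫ z : X, H t p z * ψ z * F z.1) + u t p = ∫ z : X, H t p z * ψ z * F z.1 := by
      ring
    rwa [h4] at this
  linarith

/-- sums over the deck group of functions supported in a strip -/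
theorem tsum_gk {ψ : X → ℝ} {c : ℝ} (h : ∀ z, ψ z ≠ 0 → |z.2 - c| < Real.pi / 4) (p : X) :
    ∃ k : ℤ, ∑' j : ℤ, ψ (gk j p) = ψ (gk k p) := by
  by_cases hk : ∃ k : ℤ, ψ (gk k p) ≠ 0
  · obtain ⟨k, hk⟩ := hk
    refine ⟨k, tsum_eq_single k fun j hj => ?_⟩
    by_contra hj0
    have h1 := h _ hk
    have h2 := h _ hj0
    rw [gk_snd] at h1 h2
    rw [abs_lt] at h1 h2
    have hpi := Real.pi_pos
    have h3 : ((j : ℝ) - k) * (Real.pi / 2) < 1 * (Real.pi / 2) := by linarith [h1.1, h2.2]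
    have h4 : ((k : ℝ) - j) * (Real.pi / 2) < 1 * (Real.pi / 2) := by linarith [h1.2, h2.1]
    have h5 := lt_of_mul_lt_mul_right h3 (by positivity)
    have h6 := lt_of_mul_lt_mul_right h4 (by positivity)
    have h7 : j - k < 1 := by exact_mod_cast h5
    have h8 : k - j < 1 := by exact_mod_cast h6
    exact hj (by omega)
  · push Not at hk
    refine ⟨0, ?_⟩
    rw [hk 0]
    simp [hk]

/-- tent functions: `1` for `|x| ≤ r/2`, `0` for `|x| ≥ r` -/
noncomputable def tent (r x : ℝ) : ℝ := max 0 (min 1 (2 - 2 * |x| / r))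

theorem continuous_tent (r : ℝ) : Continuous (tent r) := by
  unfold tent; fun_prop

theorem tent_nonneg (r x : ℝ) : 0 ≤ tent r x := le_max_left _ _

theorem tent_le_one (r x : ℝ) : tent r x ≤ 1 := max_le zero_le_one (min_le_left _ _)

theorem tent_one {r x : ℝ} (hr : 0 < r) (h : |x| ≤ r / 2) : tent r x = 1 := by
  unfold tent
  have : 1 ≤ 2 - 2 * |x| / r := by
    have : 2 * |x| / r ≤ 1 := by rw [div_le_one hr]; linarith
    linarith
  rw [min_eq_left this, max_eq_right zero_le_one]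

theorem tent_zero {r x : ℝ} (hr : 0 < r) (h : r ≤ |x|) : tent r x = 0 := by
  unfold tent
  have : 2 - 2 * |x| / r ≤ 0 := by
    have : 2 ≤ 2 * |x| / r := by rw [le_div_iff₀ hr]; linarith
    linarith
  rw [max_eq_left ((min_le_right _ _).trans this)]

/-- cutoff around `y` -/
noncomputable def cut (r : ℝ) (y z : X) : ℝ := tent r (z.1 - y.1) * tent r (z.2 - y.2)

theorem continuous_cut (r : ℝ) (y : X) : Continuous (cut r y) := by
  unfold cut
  exact ((continuous_tent r).comp (by fun_prop)).mul ((continuous_tent r).comp (by fun_prop))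

theorem cut_nonneg (r : ℝ) (y z : X) : 0 ≤ cut r y z :=
  mul_nonneg (tent_nonneg _ _) (tent_nonneg _ _)

theorem cut_le_one (r : ℝ) (y z : X) : cut r y z ≤ 1 :=
  mul_le_one₀ (tent_le_one _ _) (tent_nonneg _ _) (tent_le_one _ _)

theorem cut_one {r : ℝ} {y z : X} (hr : 0 < r) (h1 : |z.1 - y.1| ≤ r / 2)
    (h2 : |z.2 - y.2| ≤ r / 2) : cut r y z = 1 := by
  unfold cut
  rw [tent_one hr h1, tent_one hr h2, one_mul]

theorem cut_ne {r : ℝ} {y z : X} (hr : 0 < r) (h : cut r y z ≠ 0) :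
    |z.1 - y.1| < r ∧ |z.2 - y.2| < r := by
  constructor
  · by_contra h1
    exact h (by unfold cut; rw [tent_zero hr (not_lt.1 h1), zero_mul])
  · by_contra h1
    exact h (by unfold cut; rw [tent_zero hr (not_lt.1 h1), mul_zero])

theorem cut_supp {r : ℝ} (hr : 0 < r) (y : X) (f : X → ℝ) :
    HasCompactSupport (fun z => cut r y z * f z) := by
  refine HasCompactSupport.intro
    (K := Icc (y.1 - r) (y.1 + r) ×ˢ Icc (y.2 - r) (y.2 + r)) (isCompact_Icc.prod isCompact_Icc) ?_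
  intro z hz
  by_contra h
  have h1 := cut_ne hr (left_ne_zero_of_mul h)
  rw [abs_lt, abs_lt] at h1
  exact hz ⟨⟨by linarith [h1.1.1], by linarith [h1.1.2]⟩, ⟨by linarith [h1.2.1], by linarith [h1.2.2]⟩⟩

theorem cut_tsum {r : ℝ} (hr : 0 < r) (hr' : r ≤ 1 / 2) (y : X) {f : X → ℝ} (hf0 : ∀ z, 0 ≤ f z)
    (hf : GInv f) (p : X) : ∑' k : ℤ, cut r y (gk k p) * f (gk k p) ≤ f p := by
  have h0 : ∀ z, (fun z => cut r y z * f z) z ≠ 0 → |z.2 - y.2| < Real.pi / 4 := by
    intro z hz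
    have h1 := (cut_ne hr (left_ne_zero_of_mul hz)).2
    have := Real.pi_gt_three
    linarith
  obtain ⟨k, hk⟩ := tsum_gk h0 p
  try simp only at hk
  rw [hk, hf.gk k p]
  calc cut r y (gk k p) * f p ≤ 1 * f p := mul_le_mul_of_nonneg_right (cut_le_one _ _ _) (hf0 p)
    _ = f p := one_mul _

/-- the basic inequality: a supersolution stays above the evolution of its cut-off data -/
theorem cut_evol (hJ : T_JET) (hC : T_CMP) {F : ℝ → ℝ} {H : ℝ → X → X → ℝ} (hF : Prof F)
    (hH : Heat F H) {r : ℝ} (hr : 0 < r) (hr' : r ≤ 1 / 2) (y : X) (w : ℝ → X → ℝ)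
    (hw : ContinuousOn (fun z : ℝ × X => w z.1 z.2) (Ioi 0 ×ˢ univ))
    (hw0 : ∀ t > 0, ∀ p, 0 ≤ w t p) (hwi : ∀ t > 0, GInv (w t))
    (hwj : ∀ t > 0, ∀ p, ∃ k, SupJet F w t (gk k p)) {δ τ : ℝ} (hδ : 0 < δ) (hτ : 0 < τ) (p : X) :
    ∫ z : X, H τ p z * (cut r y z * w δ z) * F z.1 ≤ w (δ + τ) p := by
  have hwδ : Continuous (w δ) := by
    have h1 : Continuous (fun z : X => ((δ, z) : ℝ × X)) := by fun_prop
    have h2 := hw.comp_continuous h1 (fun z => ⟨hδ, mem_univ _⟩)
    exact h2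
  refine le_of_forall_pos_le_add fun ε hε => ?_
  obtain ⟨u, hu, hu0, hu1⟩ := hH.apx (fun z => cut r y z * w δ z)
    ((continuous_cut r y).mul hwδ) (cut_supp hr y _) τ hτ (ε / 2) (by positivity)
  have h1 : (fun t p => u t p + -w (δ + t) p) τ p ≤ ε / 2 := by
    refine cmp_const hC hJ hF hτ (fun t p => u t p + -w (δ + t) p) (by positivity) ?_ ?_ ?_ ?_ ?_ τ
      ⟨hτ.le, le_rfl⟩ p
    · refine (nice_contOn hu τ).add (ContinuousOn.neg ?_)
      have h2 : ContinuousOn (fun z : ℝ × X => ((δ + z.1, z.2) : ℝ × X)) (Icc 0 τ ×ˢ univ) := by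
        fun_prop
      exact hw.comp h2 fun z hz => ⟨by have := hz.1.1; simp only [mem_Ioi]; linarith, mem_univ _⟩
    · intro t ht q
      try simp only
      rw [hu.inv t ht.1 q, hwi (δ + t) (by linarith [ht.1]) q]
    · intro ε' hε'
      obtain ⟨R, hR⟩ := hu.dec τ hτ ε' hε'
      refine ⟨R, fun t ht q hq => ?_⟩
      have h3 := (abs_le.1 (hR t ht q hq)).2
      have h4 := hw0 (δ + t) (by linarith [ht.1]) q
      try simp only
      linarith
    · intro q
      have h3 := (abs_le.1 (hu0 q)).2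
      have h4 := cut_tsum hr hr' y (hw0 δ hδ) (hwi δ hδ) q
      simp only [add_zero]
      linarith
    · intro t ht q _
      obtain ⟨k, hk⟩ := hwj (δ + t) (by linarith [ht.1]) q
      refine ⟨k, hJ.add F u (fun t p => -w (δ + t) p) t (gk k q) (nice_jet hJ hu.cl ht.1 _) ?_⟩
      exact hJ.shift F (fun t p => -w t p) δ t (gk k q) hk
  have h2 := (abs_le.1 (hu1 τ ⟨hτ, le_rfl⟩ p)).1
  try simp only at h1 h2
  linarith

theorem heat_cont {F : ℝ → ℝ} {H : ℝ → X → X → ℝ} (hH : Heat F H) {t : ℝ} (ht : 0 < t) (p : X) :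
    Continuous (fun z => H t p z) := by
  have h1 : Continuous (fun z : X => ((t, p, z) : ℝ × X × X)) := by fun_prop
  exact hH.cont.comp_continuous h1 (fun z => ⟨ht, mem_univ _⟩)

theorem min_proof (hJ : T_JET) (hC : T_CMP) : T_MIN := by
  intro F H hF hH y w hw hw0 hwi hwj hwinit t ht p
  have hlim : Tendsto (fun δ => w (δ + t) p) (𝓝[>] (0 : ℝ)) (𝓝 (w t p)) := by
    have h1 : ContinuousAt (fun z : ℝ × X => w z.1 z.2) (t, p) :=
      hw.continuousAt (prod_mem_nhds (Ioi_mem_nhds ht) univ_mem)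
    have h2 : Tendsto (fun δ : ℝ => ((δ + t, p) : ℝ × X)) (𝓝[>] (0 : ℝ)) (𝓝 (t, p)) := by
      have h3 : Continuous (fun δ : ℝ => ((δ + t, p) : ℝ × X)) := by fun_prop
      have h4 := h3.tendsto 0
      simp only [zero_add] at h4
      exact h4.mono_left nhdsWithin_le_nhds
    exact h1.tendsto.comp h2
  refine le_of_forall_pos_le_add fun η hη => ?_
  have h1 := hwinit (fun z => H t p z * cut (1 / 2) y z)
    ((heat_cont hH ht p).mul (continuous_cut _ _)) ?_
    (fun z => mul_nonneg (hH.nn t ht p z) (cut_nonneg _ _ _)) η hη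
  · have h2 : ∀ᶠ δ in 𝓝[>] (0 : ℝ), H t p y - η ≤ w (δ + t) p := by
      filter_upwards [h1, self_mem_nhdsWithin] with δ hδ hδ0
      have h3 := cut_evol hJ hC hF hH (r := 1 / 2) (by norm_num) le_rfl y w hw hw0 hwi hwj hδ0 ht p
      have h4 : ∫ z : X, w δ z * (H t p z * cut (1 / 2) y z) * F z.1 =
          ∫ z : X, H t p z * (cut (1 / 2) y z * w δ z) * F z.1 := by
        congr 1
        funext z
        ring
      rw [h4] at hδ
      have h5 : cut (1 / 2) y y = 1 := cut_one (by norm_num) (by norm_num) (by norm_num)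
      rw [h5, mul_one] at hδ
      linarith
    have := ge_of_tendsto hlim h2
    linarith
  · have h2 : (fun z => H t p z * cut (1 / 2) y z) = fun z => cut (1 / 2) y z * H t p z := by
      funext z; ring
    rw [h2]
    exact cut_supp (by norm_num) y _

theorem prof_ge {F : ℝ → ℝ} (hF : Prof F) (s : ℝ) : F 0 ≤ F s := by
  have h1 : ConvexOn ℝ univ F := by
    refine convexOn_of_deriv2_nonneg convex_univ hF.continuous.continuousOn ?_ ?_ ?_
    · exact (hF.smooth.differentiable (by simp)).differentiableOn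
    · have h2 : ContDiff ℝ ∞ (deriv F) := (contDiff_infty_iff_deriv.1 hF.smooth).2
      exact (h2.differentiable (by simp)).differentiableOn
    · intro x _
      exact hF.convex x
  have h2 := h1.2 (mem_univ s) (mem_univ (-s)) (show (0 : ℝ) ≤ 1 / 2 by norm_num)
    (show (0 : ℝ) ≤ 1 / 2 by norm_num) (by norm_num)
  simp only [smul_eq_mul] at h2
  have h3 : 1 / 2 * s + 1 / 2 * -s = 0 := by ring
  rw [h3, hF.even s] at h2
  linarith

theorem sg (hJ : T_JET) (hC : T_CMP) : T_SG := by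
  intro F H hF hH t ht τ hτ p q z0 r hr hr' m hm hbox
  have hnegjet : ∀ s > 0, ∀ p, ∃ k, SupJet F (fun t p => H t p q) s (gk k p) := fun s hs p =>
    ⟨0, nice_jet' hJ (hH.cl q) hs _⟩
  have hcont : ContinuousOn (fun z : ℝ × X => H z.1 z.2 q) (Ioi 0 ×ˢ univ) := by
    have h1 : ContinuousOn (fun z : ℝ × X => ((z.1, z.2, q) : ℝ × X × X)) (Ioi 0 ×ˢ univ) := by
      fun_prop
    exact hH.cont.comp h1 fun z hz => ⟨hz.1, mem_univ _⟩
  have h1 := cut_evol hJ hC hF hH hr hr' z0 (fun t p => H t p q) hcont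
    (fun s hs p => hH.nn s hs p q) (fun s hs => hH.inv s hs q) hnegjet hτ ht p
  try simp only at h1
  rw [add_comm τ t] at h1
  refine le_trans ?_ h1
  -- lower bound for the integral
  set B : Set X := Icc (z0.1 - r / 2) (z0.1 + r / 2) ×ˢ Icc (z0.2 - r / 2) (z0.2 + r / 2) with hB
  have hHq : Continuous fun z => H τ z q := by
    have h2 : Continuous (fun z : X => ((τ, z, q) : ℝ × X × X)) := by fun_prop
    exact hH.cont.comp_continuous h2 (fun z => ⟨hτ, mem_univ _⟩)
  have hfc : Continuous fun z : X => H t p z * (cut r z0 z * H τ z q) * F z.1 :=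
    ((heat_cont hH ht p).mul ((continuous_cut r z0).mul hHq)).mul
      (hF.continuous.comp continuous_fst)
  have hfs : HasCompactSupport fun z : X => H t p z * (cut r z0 z * H τ z q) * F z.1 := by
    have h2 : (fun z : X => H t p z * (cut r z0 z * H τ z q) * F z.1) =
        fun z => cut r z0 z * (H t p z * H τ z q * F z.1) := by
      funext z; ring
    rw [h2]
    exact cut_supp hr z0 _
  have hfi := hfc.integrable_of_hasCompactSupport hfs (μ := (volume : Measure X))
  have hf0 : ∀ z : X, 0 ≤ H t p z * (cut r z0 z * H τ z q) * F z.1 := fun z =>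
    mul_nonneg (mul_nonneg (hH.nn t ht p z) (mul_nonneg (cut_nonneg _ _ _) (hH.nn τ hτ z q)))
      (hF.pos _).le
  have hBm : MeasurableSet B := measurableSet_Icc.prod measurableSet_Icc
  have hBv : (volume : Measure X).real B = r ^ 2 := by
    rw [hB, measureReal_def, Measure.volume_eq_prod, Measure.prod_prod, Real.volume_Icc,
      Real.volume_Icc, ENNReal.toReal_mul, ENNReal.toReal_ofReal (by linarith),
      ENNReal.toReal_ofReal (by linarith)]
    ring
  have hBfin : (volume : Measure X) B ≠ ⊤ :=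
    (isCompact_Icc.prod isCompact_Icc).measure_lt_top.ne
  calc F 0 * r ^ 2 * m = ∫ _ in B, F 0 * m := by
        rw [setIntegral_const, hBv, smul_eq_mul]; ring
    _ ≤ ∫ z in B, H t p z * (cut r z0 z * H τ z q) * F z.1 := by
        refine setIntegral_mono_on (integrableOn_const hBfin) hfi.integrableOn hBm fun z hz => ?_
        have h3 : |z.1 - z0.1| ≤ r / 2 := by
          rw [abs_le]; constructor <;> linarith [hz.1.1, hz.1.2]
        have h4 : |z.2 - z0.2| ≤ r / 2 := by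
          rw [abs_le]; constructor <;> linarith [hz.2.1, hz.2.2]
        rw [cut_one hr h3 h4, one_mul, mul_comm (F 0) m]
        have h5 := hbox z (by linarith) (by linarith)
        exact mul_le_mul h5 (prof_ge hF z.1) (hF.pos 0).le (by linarith)
    _ ≤ ∫ z : X, H t p z * (cut r z0 z * H τ z q) * F z.1 :=
        setIntegral_le_integral hfi (Eventually.of_forall hf0)

end Pool.Agent.H2.HK
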