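import Mathlib
import Pool.Agent.H2.HK.MIN

/-!
# MP_e94f6f_an, module MAX: the heat kernel is above every subsolution with small support
-/

open MeasureTheory Set Filter Topology
open scoped ContDiff

namespace Pool.Agent.H2.HK

open Pool.Agent.H96.HK

section

variable {Kc : Set X}

/-- at most one translate meets `Kc` -/
theorem uniq_gk (hd : ∀ k : ℤ, k ≠ 0 → Disjoint (gk k '' Kc) Kc) {p : X} {j k : ℤ}
    (hj : gk j p ∈ Kc) (hk : gk k p ∈ Kc) : j = k := by
  by_contra h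
  have h1 := hd (j - k) (sub_ne_zero.2 h)
  refine Set.disjoint_left.1 h1 ⟨gk k p, hk, ?_⟩ hj
  rw [← gk_add, sub_add_cancel]

theorem tsum_single {f : X → ℝ} (hd : ∀ k : ℤ, k ≠ 0 → Disjoint (gk k '' Kc) Kc)
    (h0 : ∀ p, p ∉ Kc → f p = 0) {p : X} {k : ℤ} (hk : gk k p ∈ Kc) :
    ∑' j : ℤ, f (gk j p) = f (gk k p) := by
  refine tsum_eq_single k fun j hj => ?_
  refine h0 _ fun h => hj (uniq_gk hd h hk)

theorem tsum_none {f : X → ℝ} (h0 : ∀ p, p ∉ Kc → f p = 0) {p : X} (hk : ∀ k, gk k p ∉ Kc) :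
    ∑' j : ℤ, f (gk j p) = 0 := by
  have : ∀ j : ℤ, f (gk j p) = 0 := fun j => h0 _ (hk j)
  simp [this]

theorem le_sum_gk {f : X → ℝ} (hd : ∀ k : ℤ, k ≠ 0 → Disjoint (gk k '' Kc) Kc)
    (h0 : ∀ p, p ∉ Kc → f p = 0) (hn : ∀ p, 0 ≤ f p) (p : X) : f p ≤ ∑' j : ℤ, f (gk j p) := by
  by_cases h : ∃ k, gk k p ∈ Kc
  · obtain ⟨k, hk⟩ := h
    rw [tsum_single hd h0 hk]
    by_cases hp : p ∈ Kc
    · have : (0 : ℤ) = k := uniq_gk hd (by rw [gk_zero]; exact hp) hk
      rw [← this, gk_zero]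
    · rw [h0 p hp]; exact hn _
  · push Not at h
    have hp : p ∉ Kc := by have := h 0; rwa [gk_zero] at this
    rw [tsum_none h0 h, h0 p hp]

theorem sum_inv (f : X → ℝ) : GInv (fun p => ∑' j : ℤ, f (gk j p)) := by
  intro p
  simp only
  rw [← (Equiv.addRight (1 : ℤ)).tsum_eq (fun j : ℤ => f (gk j p))]
  refine tsum_congr fun j => ?_
  have : (Equiv.addRight (1 : ℤ)) j = j + 1 := rfl
  rw [this, gk_add, gk_one]

/-- local finiteness -/
theorem sum_fin (hK : IsCompact Kc) (B : ℝ) : ∃ S : Finset ℤ, ∀ (f : X → ℝ),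
    (∀ p, p ∉ Kc → f p = 0) → ∀ p : X, |p.2| ≤ B → ∑' j : ℤ, f (gk j p) = ∑ j ∈ S, f (gk j p) := by
  obtain ⟨B', hB'⟩ : ∃ B' : ℝ, ∀ z ∈ Kc, |z.2| ≤ B' := by
    obtain ⟨C, hC⟩ := hK.exists_bound_of_continuousOn (f := fun z : X => z.2) (by fun_prop)
    exact ⟨C, fun z hz => by simpa using hC z hz⟩
  obtain ⟨N, hN⟩ := exists_nat_ge (B + B')
  refine ⟨Finset.Icc (-(N : ℤ)) N, fun f h0 p hp => tsum_eq_sum fun j hj => ?_⟩
  refine h0 _ fun h => hj ?_
  have h1 := hB' _ h
  rw [gk_snd] at h1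
  have h2 : |(j : ℝ)| ≤ N := by
    have h3 : |(j : ℝ) * (Real.pi / 2)| ≤ B + B' := by
      have h4 : |(j : ℝ) * (Real.pi / 2)| ≤ |p.2 + j * (Real.pi / 2)| + |p.2| := by
        have := abs_sub (p.2 + j * (Real.pi / 2)) p.2
        rwa [add_sub_cancel_left] at this
      linarith
    rw [abs_mul, abs_of_pos (show 0 < Real.pi / 2 by positivity)] at h3
    have h5 : (1 : ℝ) ≤ Real.pi / 2 := by have := Real.pi_gt_three; linarith
    nlinarith [abs_nonneg (j : ℝ)]
  rw [abs_le] at h2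
  rw [Finset.mem_Icc]
  exact ⟨by exact_mod_cast h2.1, by exact_mod_cast h2.2⟩

theorem sum_cont (hK : IsCompact Kc) {ψ : ℝ → X → ℝ} {I : Set ℝ}
    (hc : ContinuousOn (fun z : ℝ × X => ψ z.1 z.2) (I ×ˢ univ))
    (h0 : ∀ t ∈ I, ∀ p, p ∉ Kc → ψ t p = 0) :
    ContinuousOn (fun z : ℝ × X => ∑' j : ℤ, ψ z.1 (gk j z.2)) (I ×ˢ univ) := by
  intro z hz
  obtain ⟨S, hS⟩ := sum_fin hK (|z.2.2| + 1)
  have h1 : ContinuousOn (fun z : ℝ × X => ∑ j ∈ S, ψ z.1 (gk j z.2)) (I ×ˢ univ) := by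
    refine continuousOn_finsetSum _ fun j _ => ?_
    have h2 : ContinuousOn (fun z : ℝ × X => ((z.1, gk j z.2) : ℝ × X)) (I ×ˢ univ) := by
      have := continuous_gk j
      fun_prop
    exact hc.comp h2 fun z hz => ⟨hz.1, mem_univ _⟩
  refine (h1 z hz).congr_of_eventuallyEq ?_ ?_
  · have h3 : {z' : ℝ × X | |z'.2.2| < |z.2.2| + 1} ∈ 𝓝 z := by
      have h4 : IsOpen {z' : ℝ × X | |z'.2.2| < |z.2.2| + 1} :=
        isOpen_lt (by fun_prop) continuous_const
      exact h4.mem_nhds (by simp)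
    filter_upwards [mem_nhdsWithin_of_mem_nhds h3, self_mem_nhdsWithin] with z' hz' hz'I
    exact hS (ψ z'.1) (h0 z'.1 hz'I.1) z'.2 (le_of_lt hz')
  · exact hS (ψ z.1) (h0 z.1 hz.1) z.2 (by linarith)

end

theorem max_proof (hJ : T_JET) (hC : T_CMP) : T_MAX := by
  intro F H hF hH y t1 ψ Kc ht1 hK hd hψc hψ0 hψK hψj hψi t ht p
  obtain ⟨R0, hR0⟩ : ∃ R0 : ℝ, ∀ z ∈ Kc, |z.1| ≤ R0 := by
    obtain ⟨C, hC⟩ := hK.exists_bound_of_continuousOn (f := fun z : X => z.1) (by fun_prop)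
    exact ⟨C, fun z hz => by simpa using hC z hz⟩
  set w : ℝ → X → ℝ := fun t p => ∑' j : ℤ, ψ t (gk j p) with hw
  have hwc : ContinuousOn (fun z : ℝ × X => w z.1 z.2) (Ioc 0 t1 ×ˢ univ) :=
    sum_cont hK hψc hψK
  have hwi : ∀ s, GInv (w s) := fun s => sum_inv (ψ s)
  have hwψ : ∀ s ∈ Ioc 0 t1, ∀ q, ψ s q ≤ w s q := fun s hs q =>
    le_sum_gk hd (hψK s hs) (hψ0 s hs) q
  have hψs : ∀ s ∈ Ioc 0 t1, Continuous (ψ s) := by
    intro s hs
    have h1 : Continuous (fun z : X => ((s, z) : ℝ × X)) := by fun_prop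
    exact hψc.comp_continuous h1 (fun z => ⟨hs, mem_univ _⟩)
  have hψcs : ∀ s ∈ Ioc 0 t1, HasCompactSupport (ψ s) := fun s hs =>
    HasCompactSupport.intro hK fun q hq => hψK s hs q hq
  have hwdec : ∀ s ∈ Ioc 0 t1, ∀ q : X, R0 < |q.1| → w s q = 0 := by
    intro s hs q hq
    refine tsum_none (hψK s hs) fun k hk => ?_
    have := hR0 _ hk
    rw [abs_gk_fst] at this
    linarith
  -- evolution from a positive time
  have hev : ∀ δ, 0 < δ → δ < t → w t p ≤ ∫ z : X, H (t - δ) p z * ψ δ z * F z.1 := by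
    intro δ hδ hδt
    have hδ1 : δ ∈ Ioc 0 t1 := ⟨hδ, hδt.le.trans ht.2⟩
    have hT : 0 < t - δ := by linarith
    refine le_of_forall_pos_le_add fun ε hε => ?_
    obtain ⟨u, hu, hu0, hu1⟩ := hH.apx (ψ δ) (hψs δ hδ1) (hψcs δ hδ1) (t - δ) hT (ε / 2)
      (by positivity)
    have hint : ∀ s ∈ Ioc 0 (t - δ), ∀ q, -(ε / 2) ≤ u s q := by
      intro s hs q
      have h1 := (abs_le.1 (hu1 s hs q)).1
      have h2 : 0 ≤ ∫ z : X, H s q z * ψ δ z * F z.1 := integral_nonneg fun z =>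
        mul_nonneg (mul_nonneg (hH.nn s hs.1 q z) (hψ0 δ hδ1 z)) (hF.pos _).le
      linarith
    have h1 : (fun s q => w (δ + s) q + -u s q) (t - δ) p ≤ ε / 2 := by
      refine cmp_const hC hJ hF hT (fun s q => w (δ + s) q + -u s q) (by positivity) ?_ ?_ ?_ ?_ ?_
        (t - δ) ⟨hT.le, le_rfl⟩ p
      · refine ContinuousOn.add ?_ (nice_contOn hu _).neg
        have h2 : ContinuousOn (fun z : ℝ × X => ((δ + z.1, z.2) : ℝ × X))
          (Icc 0 (t - δ) ×ˢ univ) := by fun_prop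
        refine hwc.comp h2 fun z hz => ⟨⟨?_, ?_⟩, mem_univ _⟩
        · have := hz.1.1
          simp only
          linarith
        · have := hz.1.2
          have := ht.2
          simp only
          linarith
      · intro s hs q
        simp only
        rw [hwi (δ + s) q, hu.inv s hs.1 q]
      · intro ε' hε'
        obtain ⟨R, hR⟩ := hu.dec (t - δ) hT ε' hε'
        refine ⟨max R (R0 + 1), fun s hs q hq => ?_⟩
        have h3 := (abs_le.1 (hR s hs q ((le_max_left _ _).trans hq))).1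
        have h4 : R0 < |q.1| := by
          have := (le_max_right R (R0 + 1)).trans hq
          linarith
        have h5 := hwdec (δ + s) ⟨by linarith [hs.1], by linarith [hs.2, ht.2]⟩ q h4
        try simp only
        rw [h5]
        linarith
      · intro q
        have h3 := (abs_le.1 (hu0 q)).1
        simp only [add_zero, hw]
        linarith
      · intro s hs q hq
        have hs' : δ + s ∈ Ioc 0 t1 := ⟨by linarith [hs.1], by linarith [hs.2, ht.2]⟩
        try simp only at hq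
        have h2 := hint s hs q
        have hwpos : 0 < w (δ + s) q := by linarith
        obtain ⟨k, hk⟩ : ∃ k, gk k q ∈ Kc := by
          by_contra h
          push Not at h
          have : w (δ + s) q = 0 := tsum_none (hψK _ hs') h
          linarith
        have hwk : w (δ + s) q = ψ (δ + s) (gk k q) := tsum_single hd (hψK _ hs') hk
        have hψpos : 0 < ψ (δ + s) (gk k q) := by rw [← hwk]; exact hwpos
        refine ⟨k, hJ.add F (fun s q => w (δ + s) q) (fun s q => -u s q) s (gk k q) ?_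
          (nice_jet' hJ hu.cl hs.1 _)⟩
        refine hJ.shift F w δ s (gk k q) ?_
        refine hJ.mono F ψ w (δ + s) (gk k q) ?_ ?_ (hψj (δ + s) hs' _ hψpos)
        · rw [(hwi (δ + s)).gk k q, hwk]
        · have h3 : {z : ℝ × X | 0 < z.1} ∈ 𝓝 ((δ + s, gk k q) : ℝ × X) :=
            (isOpen_lt continuous_const continuous_fst).mem_nhds hs'.1
          filter_upwards [mem_nhdsWithin_of_mem_nhds h3, self_mem_nhdsWithin] with z hz hz'
          exact hwψ z.1 ⟨hz, hz'.1.trans hs'.2⟩ z.2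
    have h2 := (abs_le.1 (hu1 (t - δ) ⟨hT, le_rfl⟩ p)).2
    simp only at h1
    have h3 : δ + (t - δ) = t := by ring
    rw [h3] at h1
    linarith
  -- the limit
  refine (hwψ t ht p).trans ?_
  refine le_of_forall_pos_le_add fun ε hε => ?_
  have hunif : ∀ᶠ δ in 𝓝[>] (0 : ℝ), ∀ z ∈ Kc, H (t - δ) p z ≤ H t p z + ε / 2 := by
    have hcomp : IsCompact (Icc (t / 2) t ×ˢ Kc) := isCompact_Icc.prod hK
    have hcont : ContinuousOn (fun z : ℝ × X => H z.1 p z.2) (Icc (t / 2) t ×ˢ Kc) := by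
      have h1 : ContinuousOn (fun z : ℝ × X => ((z.1, p, z.2) : ℝ × X × X))
        (Icc (t / 2) t ×ˢ Kc) := by fun_prop
      refine hH.cont.comp h1 fun z hz => ⟨?_, mem_univ _⟩
      have h2 := hz.1.1
      have h3 := ht.1
      simp only [mem_Ioi]
      linarith
    have huc := hcomp.uniformContinuousOn_of_continuous hcont
    rw [Metric.uniformContinuousOn_iff] at huc
    obtain ⟨d, hd0, hd1⟩ := huc (ε / 2) (by positivity)
    have h4 : Ioo 0 (min d (t / 2)) ∈ 𝓝[>] (0 : ℝ) :=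
      Ioo_mem_nhdsGT (lt_min hd0 (by have := ht.1; positivity))
    filter_upwards [h4] with δ hδ z hz
    have h5 : δ < d := lt_of_lt_of_le hδ.2 (min_le_left _ _)
    have h6 : δ < t / 2 := lt_of_lt_of_le hδ.2 (min_le_right _ _)
    have h7 := hd1 (t - δ, z) ⟨⟨by simp only; linarith, by simp only; linarith [hδ.1]⟩, hz⟩ (t, z)
      ⟨⟨by have := ht.1; simp only; linarith, le_rfl⟩, hz⟩ (by
        rw [Prod.dist_eq]
        simp only [dist_self]
        rw [max_eq_left dist_nonneg, Real.dist_eq]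
        have : t - δ - t = -δ := by ring
        rw [this, abs_neg, abs_of_pos hδ.1]
        exact h5)
    rw [Real.dist_eq] at h7
    have h8 := (abs_lt.1 h7).2
    simp only at h8
    linarith
  have hinit := hψi (fun z => H t p z + ε / 2) ((heat_cont hH ht.1 p).add continuous_const)
    (fun z => by have := hH.nn t ht.1 p z; positivity) (ε / 2) (by positivity)
  have h1 : ∀ᶠ δ in 𝓝[>] (0 : ℝ), δ ∈ Ioo 0 t := Ioo_mem_nhdsGT ht.1
  obtain ⟨δ, ⟨hδu, hδi⟩, hδ⟩ := ((hunif.and hinit).and h1).exists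
  have hδ1 : δ ∈ Ioc 0 t1 := ⟨hδ.1, hδ.2.le.trans ht.2⟩
  have h2 := hev δ hδ.1 hδ.2
  have h3 : ∫ z : X, H (t - δ) p z * ψ δ z * F z.1 ≤ ∫ z : X, ψ δ z * (H t p z + ε / 2) * F z.1 := by
    have hFc : Continuous fun z : X => F z.1 := hF.continuous.comp continuous_fst
    refine integral_mono ?_ ?_ ?_
    · refine Continuous.integrable_of_hasCompactSupport
        (((heat_cont hH (by linarith [hδ.2]) p).mul (hψs δ hδ1)).mul hFc) ?_
      refine HasCompactSupport.intro hK fun z hz => ?_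
      rw [hψK δ hδ1 z hz, mul_zero, zero_mul]
    · refine Continuous.integrable_of_hasCompactSupport
        (((hψs δ hδ1).mul ((heat_cont hH ht.1 p).add continuous_const)).mul hFc) ?_
      refine HasCompactSupport.intro hK fun z hz => ?_
      rw [hψK δ hδ1 z hz, zero_mul, zero_mul]
    · intro z
      simp only
      by_cases hz : z ∈ Kc
      · have h4 := hδu z hz
        have h5 := hψ0 δ hδ1 z
        refine mul_le_mul_of_nonneg_right ?_ (hF.pos _).le
        rw [mul_comm]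
        exact mul_le_mul_of_nonneg_left h4 h5
      · rw [hψK δ hδ1 z hz, mul_zero, zero_mul, zero_mul, zero_mul]
  linarith

end Pool.Agent.H2.HK
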