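import Mathlib
import Pool.Agent.H96.HK.Basic

/-!
# MP_e94f6f_an, module PROF: a profile exists
-/

open MeasureTheory Set Filter Topology
open scoped ContDiff

namespace Pool.Agent.H2.HK

open Pool.Agent.H96.HK

/-- the slope -/
noncomputable def sl (s : ℝ) : ℝ := 2 * Real.smoothTransition ((1 + s) / 2) - 1

theorem st_symm (x : ℝ) : Real.smoothTransition (1 - x) = 1 - Real.smoothTransition x := by
  unfold Real.smoothTransition
  have h := Real.smoothTransition.pos_denom x
  have h2 : expNegInvGlue (1 - x) + expNegInvGlue (1 - (1 - x)) ≠ 0 := by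
    rw [sub_sub_cancel]; linarith
  rw [sub_sub_cancel] at h2 ⊢
  rw [eq_sub_iff_add_eq, add_comm (expNegInvGlue (1 - x)), ← add_div, add_comm (expNegInvGlue (1 - x))]
  exact div_self h.ne'

theorem sl_odd (s : ℝ) : sl (-s) = -sl s := by
  unfold sl
  have : (1 + -s) / 2 = 1 - (1 + s) / 2 := by ring
  rw [this, st_symm]
  ring

theorem sl_smooth : ContDiff ℝ ∞ sl := by
  unfold sl
  exact (contDiff_const.mul (Real.smoothTransition.contDiff.comp
    ((contDiff_const.add contDiff_id).div_const 2))).sub contDiff_const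

theorem sl_mono : Monotone sl := by
  intro a b h
  unfold sl
  have := Real.smoothTransition.monotone (show (1 + a) / 2 ≤ (1 + b) / 2 by linarith)
  linarith

theorem sl_zero : sl 0 = 0 := by
  have := sl_odd 0
  rw [neg_zero] at this
  linarith

theorem sl_one {s : ℝ} (h : 1 ≤ s) : sl s = 1 := by
  unfold sl
  rw [Real.smoothTransition.one_of_one_le (by linarith)]
  norm_num

theorem sl_lt {s : ℝ} (h : s < 1) : sl s < 1 := by
  unfold sl
  have := Real.smoothTransition.lt_one_of_lt_one (show (1 + s) / 2 < 1 by linarith)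
  linarith

theorem sl_le (s : ℝ) : sl s ≤ 1 := by
  unfold sl
  have := Real.smoothTransition.le_one ((1 + s) / 2)
  linarith

theorem prof : T_PROF := by
  have hc : Continuous sl := sl_smooth.continuous
  have hi : ∀ a b, IntervalIntegrable sl volume a b := fun a b => hc.intervalIntegrable a b
  set m0 : ℝ := 1 - ∫ x in (0 : ℝ)..1, sl x with hm0
  have hm0pos : 0 < m0 := by
    have h1 : m0 = ∫ x in (0 : ℝ)..1, (1 - sl x) := by
      rw [intervalIntegral.integral_sub (by simp) (hi 0 1)]
      simp [hm0]
    rw [h1]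
    refine intervalIntegral.intervalIntegral_pos_of_pos_on
      ((continuous_const.sub hc).intervalIntegrable 0 1) ?_ (by norm_num)
    intro x hx
    have := sl_lt hx.2
    linarith
  set F : ℝ → ℝ := fun s => m0 + ∫ x in (0 : ℝ)..s, sl x with hF
  have hder : ∀ s, HasDerivAt F (sl s) s := by
    intro s
    have := (hc.integral_hasStrictDerivAt 0 s).hasDerivAt
    exact this.const_add m0
  have hdF : deriv F = sl := funext fun s => (hder s).deriv
  have heven : ∀ s, F (-s) = F s := by
    intro s
    simp only [hF]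
    congr 1
    have h1 : ∫ x in (0 : ℝ)..(-s), sl x = ∫ x in (0 : ℝ)..(-s), -sl (-x) := by
      congr 1
      funext x
      rw [sl_odd, neg_neg]
    rw [h1, intervalIntegral.integral_neg, intervalIntegral.integral_comp_neg]
    simp only [neg_neg, neg_zero]
    rw [intervalIntegral.integral_symm, neg_neg]
  have hpos0 : ∀ s, 0 ≤ s → m0 ≤ F s := by
    intro s hs
    simp only [hF]
    have : 0 ≤ ∫ x in (0 : ℝ)..s, sl x := by
      refine intervalIntegral.integral_nonneg hs fun x hx => ?_
      rw [← sl_zero]
      exact sl_mono hx.1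
    linarith
  have hfar0 : ∀ s, 1 ≤ s → F s = s := by
    intro s hs
    simp only [hF]
    rw [← intervalIntegral.integral_add_adjacent_intervals (hi 0 1) (hi 1 s)]
    have h2 : ∫ x in (1 : ℝ)..s, sl x = ∫ x in (1 : ℝ)..s, (1 : ℝ) := by
      refine intervalIntegral.integral_congr fun x hx => ?_
      rw [uIcc_of_le hs] at hx
      exact sl_one hx.1
    rw [h2, intervalIntegral.integral_const, smul_eq_mul, mul_one, hm0]
    ring
  refine ⟨F, ?_, heven, ?_, ?_, ?_⟩
  · rw [contDiff_infty_iff_deriv]
    refine ⟨fun s => (hder s).differentiableAt, ?_⟩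
    rw [hdF]
    exact sl_smooth
  · intro s
    rw [hdF]
    exact sl_mono.deriv_nonneg
  · intro s hs
    rcases le_total 0 s with h | h
    · rw [abs_of_nonneg h] at hs ⊢
      exact hfar0 s hs
    · rw [abs_of_nonpos h] at hs ⊢
      rw [← heven]
      exact hfar0 _ hs
  · intro s
    rcases le_total 0 s with h | h
    · exact lt_of_lt_of_le hm0pos (hpos0 s h)
    · rw [← heven]
      exact lt_of_lt_of_le hm0pos (hpos0 _ (by linarith))

end Pool.Agent.H2.HK
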